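import Pool.Agent.Helper58_AHH.Base

/-!
# The block lemma in the measure of the protocol (helper58)
-/

set_option autoImplicit false

open MeasureTheory ProbabilityTheory

open scoped BigOperators NNReal ENNReal Matrix

noncomputable section

namespace Pool.Agent.AHH.H58

open Pool.Agent.BED (Tor adj)
open Pool.Agent.ANP (Cfg gm Win)
open Pool.Agent.AND2B Pool.Agent.AFJ Pool.Agent.AFL

variable {d M : ℕ} [NeZero M]

/-- the block lemma for the noise of the protocol -/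
theorem flo_gm {c₀ C₀ C : ℝ} {T : Cfg (Tor d M)} {th s : ℝ≥0} {b : Finset (Tor d M)}
    (F : Fl (Tor d M)) (hFb : F.b = b) (hth : th ≤ 1) (hs : ∀ x ∈ b, T.s x = s)
    (hT : F.T = (1 - (th : ℝ)) * s)
    (hflo : (Measure.pi fun _ : F.b => gaussianReal 0 F.T.toNNReal) {V | ¬ F.Good V} ≤
      ENNReal.ofReal (F.pr c₀ C₀ C)) :
    gm (fun _ => 0) (T.hv th b) {ζ | ¬ F.Good (fun c => ζ c)} ≤ ENNReal.ofReal (F.pr c₀ C₀ C) := by
  refine le_trans ?_ hflo
  have h := gm_restr (T.hv th b) F.b F.T.toNNReal (fun x hx => ?_) {V | ¬ F.Good V}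
  · exact h
  · rw [hFb] at hx
    unfold Cfg.hv
    rw [if_pos hx, hs x hx]
    apply NNReal.coe_injective
    rw [Real.coe_toNNReal _ (by
      rw [hT]
      have : (th : ℝ) ≤ 1 := by exact_mod_cast hth
      exact mul_nonneg (by linarith) s.2), hT]
    push_cast [NNReal.coe_sub hth]
    ring

/-- a bad event for the protocol which is contained in a bad event of the block lemma -/
theorem flo_cover {c₀ C₀ C : ℝ} {T : Cfg (Tor d M)} {th s : ℝ≥0} {b : Finset (Tor d M)}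
    (F : Fl (Tor d M)) (hFb : F.b = b) (hth : th ≤ 1) (hs : ∀ x ∈ b, T.s x = s)
    (hT : F.T = (1 - (th : ℝ)) * s)
    (hflo : (Measure.pi fun _ : F.b => gaussianReal 0 F.T.toNNReal) {V | ¬ F.Good V} ≤
      ENNReal.ofReal (F.pr c₀ C₀ C)) (p : ℝ) (hp : F.pr c₀ C₀ C ≤ p) (Q : (Tor d M → ℝ) → Prop)
    (hQ : ∀ ζ : Tor d M → ℝ, F.Good (fun c => ζ c) → Q ζ) :
    gm (fun _ => 0) (T.hv th b) {ζ | ¬ Q ζ} ≤ ENNReal.ofReal p := by
  refine (measure_mono (t := {ζ | ¬ F.Good (fun c => ζ c)}) ?_).trans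
    ((flo_gm F hFb hth hs hT hflo).trans (ENNReal.ofReal_le_ofReal hp))
  intro ζ hζ hG
  exact hζ (hQ ζ hG)

/-- the resolvent of the data at the start and at the end of the update -/
theorem fl_G0 (F : Fl (Tor d M)) (E e₀ : ℝ) (T : Cfg (Tor d M)) (b : Finset (Tor d M))
    (hF : F.toBlk = blkOf E e₀ T b) : F.G0 = net E e₀ T ∧ ∀ x, F.k 0 x = kap e₀ T x := by
  constructor
  · unfold Fl.G0 Fl.Gt
    have h := blk_G E e₀ T T b 0 (fun _ => 0) rfl (fun x _ => ⟨by rw [sub_zero], by rw [add_zero]⟩)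
      (fun x _ => ⟨rfl, rfl⟩)
    rw [← h]
    have : ∀ D : AFJ.Blk (Tor d M), D = blkOf E e₀ T b →
        D.G (0, 0) = (blkOf E e₀ T b).G (0, fun c => (fun _ => (0 : ℝ)) (c : Tor d M)) := by
      intro D hD
      subst hD
      rfl
    exact this _ hF
  · intro x
    unfold Fl.k
    rw [hF]
    exact blk_kp E e₀ T T b 0 rfl (fun x _ => by rw [sub_zero]) (fun x _ => rfl) x

theorem fl_Gt (F : Fl (Tor d M)) (E e₀ : ℝ) (T : Cfg (Tor d M)) (th s : ℝ≥0)
    (b : Finset (Tor d M)) (hF : F.toBlk = blkOf E e₀ T b) (hs : ∀ x ∈ b, T.s x = s)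
    (hT : F.T = (1 - (th : ℝ)) * s) (ζ : Tor d M → ℝ) :
    F.Gt (F.T, fun c => ζ c) = net E e₀ (T.hf th b ζ) ∧
      ∀ x, F.k F.T x = kap e₀ (T.hf th b ζ) x := by
  obtain ⟨h1, h2⟩ := hf_facts T th b ζ F.T (fun x hx => by rw [hT, hs x hx])
  constructor
  · rw [← blk_G E e₀ T (T.hf th b ζ) b F.T ζ rfl h1 h2]
    have : ∀ (D : AFJ.Blk (Tor d M)) (t : ℝ), D = blkOf E e₀ T b →
        D.G (t, fun c => ζ c) = (blkOf E e₀ T b).G (t, fun c => ζ c) := by
      intro D t hD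
      subst hD
      rfl
    exact this _ _ hF
  · intro x
    unfold Fl.k
    rw [hF]
    exact blk_kp E e₀ T (T.hf th b ζ) b F.T rfl (fun x hx => (h1 x hx).1)
      (fun x hx => (h2 x hx).1) x

end Pool.Agent.AHH.H58
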