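import Pool.Agent.Helper58_AHH.Flow
import Pool.Agent.Helper67_AHH.OkT
import Pool.Agent.Helper61_AHH.Zn
import Pool.Agent.Helper17_AHH.NumZ
import Pool.Agent.Helper67_AHH.FNz
import Pool.Agent.Helper89_FAR.LclZ

/-!
# The field `flo` (helper58)

`floF`: the field `flo` for the concrete budget, from the block lemma (`AFL.FloStmt`), the form part of the
increments (`FrmZStmt`) and the numbers of the increments (`FlowNStmt`).
-/

set_option autoImplicit false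

open MeasureTheory ProbabilityTheory

open scoped BigOperators NNReal ENNReal Matrix

noncomputable section

namespace Pool.Agent.AHH.H58

open Pool.Agent.LE.QF (BB KK)
open Pool.Agent.AND2B (net kap Viol Hr Vef Ev Prd)
open Pool.Agent.ANP (Cfg Geo Fc gm)
open Pool.Agent.AFL (Fl)
open Pool.Agent.LTG (Box)
open Pool.Agent.ANR.H89 (GeoF)
open Pool.Agent.AHH.H67 (Par flOf Yo Q1s Qs aB EOk GOk FNum BNum Lcl flOf_ok den_Z box_of_D
  box_mono fc_alv)
open Pool.Agent.AHH.H17 (parZ)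

/-- a numeric fact for all stages -/
def StZ (Q : (d : ℕ) → ℝ → ℝ → AND2B.Env d → ℕ → ℕ → Prop) : Prop :=
  ∀ (d : ℕ) (a c C : ℝ), 3 ≤ d → 0 < a → 0 < c → c ≤ 1 / 2 → 1 ≤ C →
    Ev d a es c C fun V => ∀ n k, n ≤ V.N → V.kk n ≤ k → k < V.kk (n + 1) → Q d c C V n k

/-- the numbers of the increments -/
def FlowNStmt : Prop := StZ fun _ c C V n k => FlowN (toE V c C) (bud V) n k (parZ V c C n k)

/-- the data of the block lemma for the block `B` -/
abbrev flB {d : ℕ} (V : AND2B.Env d) (c C : ℝ) (n k : ℕ) (P : Finset V.X) (T : Cfg V.X)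
    (run : Finset V.X) (B : V.X) : Fl V.X :=
  flOf (toE V c C) T (run ∩ V.G.blk n B) (Qs T (aB (V.l n) B) (2 ^ (V.l n + 3)))
    (Q1s (toE V c C) n T B) run (run \ P) (Yo (toE V c C) n T) k (parZ V c C n k)

/-- the form part -/
def FrmZStmt : Prop := StZ fun _ c C V n k => ∀ (T₀ T : Cfg V.X) (run₀ run P : Finset V.X)
  (B : V.X) (ζ : V.X → ℝ), Md (toE V c C) (bud V) n k T₀ run₀ P T run →
    Fc V.G V.kk V.cl V.Dn n k P T run → V.G.bl n B = B → (run ∩ V.G.blk n B).Nonempty →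
    Disjoint P (V.G.blk n B) → (flB V c C n k P T run B).Good (fun x => ζ x) →
      FrmI (toE V c C) (bud V) n k B T (T.hf V.th (run ∩ V.G.blk n B) ζ)

theorem exp_le_cpd (d : ℕ) : Real.exp 2 ≤ H61.cpd d := by
  unfold H61.cpd
  have hd : (0 : ℝ) < (d : ℝ) + 1 := by positivity
  have h2 : (1 : ℝ) ≤ Real.exp (1 / ((d : ℝ) + 1)) := Real.one_le_exp (by positivity)
  have h3 : Real.exp (-(1 / ((d : ℝ) + 1))) < 1 := by
    rw [Real.exp_lt_one_iff]
    have : 0 < 1 / ((d : ℝ) + 1) := by positivity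
    linarith
  have h4 := Real.exp_pos (-(1 / ((d : ℝ) + 1)))
  have h5 : (1 : ℝ) ≤ 2 / (1 - Real.exp (-(1 / ((d : ℝ) + 1)))) := by
    rw [le_div_iff₀ (by linarith)]
    linarith
  have h6 : (1 : ℝ) ≤ Real.exp (1 / ((d : ℝ) + 1)) *
      (2 / (1 - Real.exp (-(1 / ((d : ℝ) + 1))))) := by nlinarith
  exact le_mul_of_one_le_right (Real.exp_pos 2).le (one_le_pow₀ h6)

/-- plain facts about a good environment -/
theorem eok {d : ℕ} {V : AND2B.Env d} {a c C : ℝ} (hG : V.Good a es c C) (hc : 0 < c)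
    (hc' : c ≤ 1 / 2) (hC : 1 ≤ C) (hth : 2 / 3 ≤ (V.th : ℝ)) (k : ℕ) : EOk (toE V c C) k where
  th := ⟨hth, by exact_mod_cast hG.th.2⟩
  c₀ := ⟨by show 0 < c / 2; linarith, by show c / 2 ≤ 1; linarith, by show 1 ≤ 2 * C; linarith⟩
  cl := ⟨H61.cl_pos' hG.toPre k, by
    have h := cl_succ V k
    have h1 : (V.cl (k + 1) : ℝ) = ((V.th * V.cl k : ℝ≥0) : ℝ) := by rw [h]
    rw [NNReal.coe_mul] at h1
    exact h1⟩
  e₀ := hG.e0

theorem gok {d : ℕ} {V : AND2B.Env d} {a c C : ℝ} (hG : V.Good a es c C)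
    (hw : (V.w : ℝ) ≤ 1) : GOk (toE V c C) where
  th := hG.th.2.le
  cl := fun k => cl_succ V k
  clp := fun k => cl_pos V hG.w (H61.th_pos hG.toPre) k
  cl1 := by
    show V.cl 0 ≤ 1
    rw [cl_zero]
    exact_mod_cast hw
  kk0 := hG.sc.k0
  km := hG.sc.km

/-- FLO is applicable, on the dyadic torus (as `H67.flOf_okT`, with the locality as a hypothesis) -/
theorem okL {d μ J N : ℕ} {l r : ℕ → ℕ} (hd : 3 ≤ d) {V : Env d (2 ^ μ)}
    (hΓ : V.Γ = AND2B.Gt d μ J N l r) (hl : Monotone l) {bd : Bud} {n k J1 J2 : ℕ}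
    (hlμ : l n + 4 ≤ μ) {p : Par} {T₀ T : Cfg (LTG.Tor d (2 ^ μ))}
    {run₀ run P : Finset (LTG.Tor d (2 ^ μ))}
    {B : LTG.Tor d (2 ^ μ)} (hMd : Md V bd n k T₀ run₀ P T run) (hE : EOk V k)
    (hF : Fc V.Γ V.kk V.cl V.Dn n k P T run) (hN : FNum V bd n k (l n + 4) J1 J2 p) {rG : ℝ}
    (hBn : BNum V bd n k rG p)
    (hsum : ∑ i ∈ Finset.range (n + 1), (3 ^ d * V.Dn i : ℝ) / V.Γ.L i ≤ 1 / 4)
    (hloc : Lcl V T (run ∩ V.Γ.blk n B) (Q1s V n T B) (Yo V n T) k p)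
    (hG₀ : ∀ x, ‖V.G₀ x x‖ ≤ rG)
    (hPsi : ∀ x, Psi V.Γ n P x ≤ V.Cp) (hVi : ¬ Viol V.E V.L T) (hB : V.Γ.bl n B = B)
    (hPB : Disjoint P (V.Γ.blk n B)) :
    (flOf V T (run ∩ V.Γ.blk n B) (Qs T (aB (l n) B) (2 ^ (l n + 3))) (Q1s V n T B) run (run \ P)
      (Yo V n T) k p).Ok V.c₀ V.C₀ := by
  have hΓF : GeoF V.Γ := by rw [hΓ]; exact ANR.H89.geoF_T d μ J N l r hl
  have hD : ∀ x y, V.Γ.D x y = ANP.H61.sd x y := fun x y => by rw [hΓ]; rfl
  have hLn : V.Γ.L n = 2 ^ l n := by rw [hΓ]; rfl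
  have hpow : 2 ^ (l n + 4) ≤ 2 ^ μ := Nat.pow_le_pow_right (by norm_num) hlμ
  refine flOf_ok hd hMd hE hF hN hBn hG₀ hPsi hVi (aB (l n) B) hpow _ _ _
    Finset.inter_subset_left ?_ ?_ ?_ ?_ ?_ hloc
  · rw [Finset.disjoint_left]
    intro x hx hxP
    exact Finset.disjoint_left.1 hPB hxP (Finset.mem_inter.1 hx).2
  · intro x hx
    obtain ⟨hr, hb⟩ := Finset.mem_inter.1 hx
    refine Finset.mem_filter.2 ⟨fc_alv hF hE hr, ?_⟩
    unfold Geo.blk at hb
    have h1 := (Finset.mem_filter.1 hb).2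
    have h2 := hΓF.ok.diam n x B (by rw [h1, hB])
    omega
  · intro x hx
    obtain ⟨hA, hDx⟩ := Finset.mem_filter.1 hx
    refine Finset.mem_filter.2 ⟨hA, ?_⟩
    rw [hD, hLn] at hDx
    exact box_of_D (l n) B x hlμ hDx
  · intro x hx
    obtain ⟨hA, hBx⟩ := Finset.mem_filter.1 hx
    exact ⟨hA, box_mono _ (Nat.pow_le_pow_right (by norm_num) (by omega)) hBx⟩
  · obtain ⟨dd, h1, h2⟩ := hF.dens
    refine den_Z hd l (fun n => 2 ^ r n) J N n (l n + 4) (fun j hj => (hl hj).trans (by omega)) hlμ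
      (aB (l n) B) V.Dn dd (fun j B' => ?_) ?_ (Al T) _ (fun x hx => ?_) (l n + 3) (by omega)
      (fun x hx => (Finset.mem_filter.1 hx).2)
    · have h3 := h2 j B'
      rw [hΓ] at h3
      exact h3
    · refine le_trans (le_of_eq ?_) hsum
      refine Finset.sum_congr rfl fun i _ => ?_
      have h4 : V.Γ.L i = 2 ^ l i := by rw [hΓ]; rfl
      rw [h4]
      push_cast
      rfl
    · rw [H67.mem_Al, not_lt] at hx
      exact h1 x (le_antisymm hx zero_le)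

/-- THE FIELD FLO -/
theorem floF (hfl : AFL.FloStmt) (h1 : FlowNStmt) (h6 : FrmZStmt) : FloF := by
  intro d a c C hd ha hc hc' hC
  obtain ⟨Cf, hCf, hfl⟩ := hfl (c / 2) (2 * C)
  have e1 := h1 d a c C hd ha hc hc' hC
  have e2 := ANR.H89.lclZ d (by omega) a es c C hc (by linarith)
  have e3 := H17.numZ d (a := a) (c := c) (C := C) (Cf := Cf) hc hc' hC (by linarith)
  have e4 := H67.fnum d a c C hd hc hC
  have e6 := h6 d a c C hd ha hc hc' hC
  have e7 := H61.nm d a c C hc hC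
  have e9 : Ev d a es c C fun V => ∀ s : ℝ, 0 < s → s ≤ V.w → s ≤ 1 :=
    H61.ev_small (fun _ _ _ _ _ s => s ≤ 1) fun _ _ _ _ _ _ _ _ _ =>
      AND.Num.small_le 1 one_pos
  refine (((((((H61.ev_good.and e1).and e2).and e3).and e4).and e6).and e7).and
    e9).imp fun V hV => ?_
  obtain ⟨⟨⟨⟨⟨⟨⟨hG, e1⟩, e2⟩, e3⟩, e4⟩, e6⟩, e7⟩, e9⟩ := hV
  have hP : V.Pre a := hG.toPre
  have hw1 : (V.w : ℝ) ≤ 1 := e9 V.w (H61.w_pos hP) le_rfl
  intro n k T₀ run₀ P T run B hn hk hk' hB hdj hV0 hVT hS0 hF0 hF hM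
  have hN := e7 n k
  obtain ⟨hE, hBN, hpr⟩ := e3 n k hn hk hk'
  have hGo := gok (c := c) (C := C) hG hw1
  have hcla : Antitone (toE V c C).cl := fun i j hij => cl_anti V hP.th.2.le hij
  have hkk : Monotone (toE V c C).kk := fun i j hij => H61.kk_mono hP hij
  have hPsi : ∀ x, Psi (toE V c C).Γ n (P ∪ V.G.blk n B) x ≤ (toE V c C).Cp := fun x =>
    H61.Psi_le_Gt d V.μ V.J V.N V.l V.r n _ x
  have hPsi' : ∀ x, Psi (toE V c C).Γ n P x ≤ (toE V c C).Cp := fun x =>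
    H61.Psi_le_Gt d V.μ V.J V.N V.l V.r n _ x
  have hM' : Md (toE V c C) (bud V) n k T₀ run₀ P T run := hM
  have hF' : Fc (toE V c C).Γ (toE V c C).kk (toE V c C).cl (toE V c C).Dn n k P T run := hF
  have hu0 : (toE V c C).u₀ < 1 := by
    show 1 - 1 / (2 * C) < 1
    have : 0 < 1 / (2 * C) := by positivity
    linarith
  show FloB (toE V c C) (bud V) (V.p n) n k T₀ run₀ P T run B
  rcases Finset.eq_empty_or_nonempty (run ∩ V.G.blk n B) with hb | hb
  · -- no running site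
    refine flow_empty hN hB hdj hPsi ?_ hcla hkk hF' hM' (H67.md_al hM' hE) (H67.fc_alv hF' hE)
      hu0 ?_ hb
    · exact exp_le_cpd d
    · show 0 < gr V (ka V / 4) n k
      exact lt_of_lt_of_le (Real.rpow_pos_of_pos (H61.w_pos hP) _)
        (gr_bd V hP.th.2.le (by have := H61.ka_pos (V := V); linarith) n k).1
  · obtain ⟨J1, J2, hFN⟩ := e4 n k hn hk hk'
    have hBN' := hBN C (by linarith)
    have hloc := e2 n hn k hk hk' P run T B (fun x hx => (H67.md_gau hM' hE x hx).1) hF' hM'.old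
      hM'.ded hB hb
    have hlμ : V.l n + 4 ≤ V.μ := by
      have h1 := hP.sc.lN
      have h2 := hP.sc.lm hn
      omega
    have hok := okL (l := V.l) (r := V.r) (J := V.J) (N := V.N) hd (V := toE V c C) rfl
      hP.sc.lm hlμ hM' hE hF' hFN hBN' (ANR.H89.hsum_G hP (by omega)) hloc
      (fun x => hG.st.hG x x) hPsi' hVT hB hdj
    have hcard : ((Qs T (aB (V.l n) B) (2 ^ (V.l n + 3))).card : ℝ) ≤
        ((2 : ℝ) ^ (V.l n + 4)) ^ d := by
      have h1 : (Qs T (aB (V.l n) B) (2 ^ (V.l n + 3))).card ≤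
          (Finset.univ.filter fun x => Box (aB (V.l n) B) (2 ^ (V.l n + 4)) x).card := by
        refine Finset.card_le_card fun x hx => ?_
        have h2 := (Finset.mem_filter.1 hx).2
        exact Finset.mem_filter.2 ⟨Finset.mem_univ _,
          H67.box_mono _ (Nat.pow_le_pow_right (by norm_num) (by omega)) h2⟩
      have h2 := H67.card_Box (2 ^ V.μ) (aB (V.l n) B) (L := 2 ^ (V.l n + 4))
        (Nat.pow_le_pow_right (by norm_num) hlμ)
      have h3 : ((Qs T (aB (V.l n) B) (2 ^ (V.l n + 3))).card : ℝ) ≤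
          ((Finset.univ.filter fun x => Box (aB (V.l n) B) (2 ^ (V.l n + 4)) x).card : ℝ) := by
        exact_mod_cast h1
      refine h3.trans (le_of_eq ?_)
      rw [h2]
      push_cast
      rfl
    have hQQ : (Q1s (toE V c C) n T B) ⊆ Qs T (aB (V.l n) B) (2 ^ (V.l n + 3)) := hok.hQ.2.1
    have hcard1 : ((Q1s (toE V c C) n T B).card : ℝ) ≤ ((2 : ℝ) ^ (V.l n + 4)) ^ d :=
      le_trans (by exact_mod_cast Finset.card_le_card hQQ) hcard
    exact flow hN (ANR.H89.geoF_T d V.μ V.J V.N V.l V.r hP.sc.lm) hE hGo.cl hGo.clp hGo.cl1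
      hcla hkk hM' hF' (e1 n k hn hk hk') (mul_nonneg hBN'.num.2.2.2.1.le hBN'.num.2.2.1.le)
      hB hb hdj hPsi hQQ (hfl _ _ hok) (hpr T _ _ _ run _ _ hcard1 hcard)
      (fun ζ hGd => e6 n k hn hk hk' T₀ T run₀ run P B ζ hM' hF' hB hb hdj hGd)

end Pool.Agent.AHH.H58
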