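import Pool.Agent.Helper58_AHH.FloZ
import Pool.Agent.Helper48_AFL.All
import Pool.Agent.Helper90_AHH.FlowNZ
import Pool.Agent.Helper22_AHH.FrmZ

/-!
# The field `flo` without hypotheses (helper58)
-/

set_option autoImplicit false

namespace Pool.Agent.AHH.H58

/-- THE FIELD FLO -/
theorem floFin : Pool.Agent.AHH.FloF :=
  floF Pool.Agent.AFL.H48.floT Pool.Agent.AHH.H90.flowNStmt Pool.Agent.AHH.H22.frmZ

end Pool.Agent.AHH.H58
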