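import Pool.Agent.AND2B.Base
import Pool.Agent.AFL.Defs

/-!
# AND2B: from the protocol language to the block lemma (helper58)

`blkOf E e₀ T b` is the block update (`AFJ.Blk`) of the configuration `T` on the running sites `b`.
Its resolvent and absorption at the end of the update are those of `T.hf th b ζ`.
-/

set_option autoImplicit false

open MeasureTheory ProbabilityTheory

open scoped BigOperators NNReal ENNReal Matrix

noncomputable section

namespace Pool.Agent.AHH.H58

open Pool.Agent.BED (Tor adj)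
open Pool.Agent.LE.QF (qf Dl KK)
open Pool.Agent.ANP (Cfg gm Win)
open Pool.Agent.AND2B Pool.Agent.AFJ

/-! ### measures -/

section meas

variable {X : Type} [Fintype X] [DecidableEq X]

/-- events which depend only on the coordinates in `b` -/
theorem gm_restr (v : X → ℝ≥0) (b : Finset X) (r : ℝ≥0) (hv : ∀ x ∈ b, v x = r)
    (S : Set (b → ℝ)) :
    gm (fun _ => 0) v {ζ | (fun c : b => ζ c) ∈ S} ≤
      (Measure.pi fun _ : b => gaussianReal 0 r) S := by
  classical
  have e1 : (Measure.pi fun _ : b => gaussianReal 0 r) =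
      Measure.pi fun c : b => gaussianReal 0 (v c) := by
    congr 1
    funext c
    rw [hv c c.2]
  rw [e1]
  have hp := measurePreserving_piEquivPiSubtypeProd (fun x : X => gaussianReal 0 (v x))
    (fun x => x ∈ b)
  have hi : (Subtype.fintype fun x : X => x ∈ b) = Finset.Subtype.fintype b :=
    Subsingleton.elim _ _
  rw [hi] at hp
  have hf := (measurePreserving_fst (μ := Measure.pi fun c : b => gaussianReal 0 (v c))
    (ν := Measure.pi fun c : {x // x ∉ b} => gaussianReal 0 (v c))).comp hp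
  set S' := toMeasurable (Measure.pi fun c : b => gaussianReal 0 (v c)) S with hS'
  have hm : MeasurableSet S' := measurableSet_toMeasurable _ _
  rw [← measure_toMeasurable S, ← hS']
  have e2 := hf.measure_preimage hm.nullMeasurableSet
  rw [← e2]
  unfold gm
  apply measure_mono
  intro ζ hζ
  exact subset_toMeasurable _ _ hζ

end meas

variable {d M : ℕ} [NeZero M]

/-! ### the resolvent -/

/-- the data of the update of `b` -/
def blkOf (E e₀ : ℝ) (T : Cfg (Tor d M)) (b : Finset (Tor d M)) : AFJ.Blk (Tor d M) where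
  H := adj d M + Matrix.diagonal T.V
  E := E
  η := e₀
  s := fun x => (T.s x : ℝ)
  mb := T.mb
  b := b

theorem blk_kp (E e₀ : ℝ) (T T' : Cfg (Tor d M)) (b : Finset (Tor d M)) (t : ℝ)
    (hm : T'.mb = T.mb) (h1 : ∀ x ∈ b, (T'.s x : ℝ) = T.s x - t) (h2 : ∀ x, x ∉ b → T'.s x = T.s x)
    (x : Tor d M) : (blkOf E e₀ T b).kp t x = kap e₀ T' x := by
  unfold AFJ.Blk.kp kap blkOf
  simp only
  rw [hm]
  by_cases hx : x ∈ b
  · rw [if_pos hx, h1 x hx]
  · rw [if_neg hx, h2 x hx, sub_zero]

theorem blk_G (E e₀ : ℝ) (T T' : Cfg (Tor d M)) (b : Finset (Tor d M)) (t : ℝ)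
    (ζ : Tor d M → ℝ) (hm : T'.mb = T.mb)
    (h1 : ∀ x ∈ b, (T'.s x : ℝ) = T.s x - t ∧ T'.V x = T.V x + ζ x)
    (h2 : ∀ x, x ∉ b → T'.s x = T.s x ∧ T'.V x = T.V x) :
    (blkOf E e₀ T b).G (t, fun c => ζ c) = net E e₀ T' := by
  unfold AFJ.Blk.G net res ANR.Gr
  congr 1
  ext x y
  by_cases hxy : x = y
  · subst hxy
    simp only [Matrix.add_apply, Matrix.map_apply, Matrix.diagonal_apply_eq, Matrix.sub_apply,
      AFJ.Blk.pt, blkOf, Hr, Vef, kap]
    rw [hm]
    by_cases hx : x ∈ b
    · rw [dif_pos hx, (h1 x hx).1, (h1 x hx).2]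
      apply Complex.ext
      · simp
        ring
      · simp
        ring
    · rw [dif_neg hx, (h2 x hx).1, (h2 x hx).2]
      apply Complex.ext
      · simp
        ring
      · simp
        ring
  · simp only [Matrix.add_apply, Matrix.map_apply, Matrix.sub_apply, blkOf, Hr,
      Matrix.diagonal_apply_ne _ hxy]
    simp

omit [NeZero M] in
/-- the data at the end of the update -/
theorem hf_facts (T : Cfg (Tor d M)) (th : ℝ≥0) (b : Finset (Tor d M)) (ζ : Tor d M → ℝ) (t : ℝ)
    (ht : ∀ x ∈ b, t = (1 - (th : ℝ)) * T.s x) :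
    (∀ x ∈ b, ((T.hf th b ζ).s x : ℝ) = T.s x - t ∧ (T.hf th b ζ).V x = T.V x + ζ x) ∧
      ∀ x, x ∉ b → (T.hf th b ζ).s x = T.s x ∧ (T.hf th b ζ).V x = T.V x := by
  constructor
  · intro x hx
    unfold Cfg.hf
    simp only
    rw [if_pos hx, if_pos hx, ht x hx]
    refine ⟨?_, rfl⟩
    push_cast
    ring
  · intro x hx
    unfold Cfg.hf
    simp only
    rw [if_neg hx, if_neg hx]
    exact ⟨rfl, rfl⟩

/-! ### the form -/

section form

variable {X : Type} [Fintype X] [DecidableEq X]

theorem qf_dl (K : Matrix X X ℝ) (hK : ∀ x y, K x y = K y x) (f : X → ℝ) :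
    qf (Dl K) f = 1 / 2 * ∑ x, ∑ y, K x y * (f x - f y) ^ 2 := by
  unfold qf Dl
  have e1 : ∑ a, f a * ((Matrix.diagonal (fun a => ∑ b, K a b) - K) *ᵥ f) a =
      ∑ x, ∑ y, (K x y * f x ^ 2 - K x y * (f x * f y)) := by
    apply Finset.sum_congr rfl
    intro x _
    rw [Matrix.sub_mulVec, Pi.sub_apply, Matrix.mulVec_diagonal, Matrix.mulVec, dotProduct,
      Finset.sum_mul, ← Finset.sum_sub_distrib, Finset.mul_sum]
    apply Finset.sum_congr rfl
    intro y _
    ring
  have e2 : ∑ x, ∑ y, K x y * f y ^ 2 = ∑ x, ∑ y, K x y * f x ^ 2 := by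
    rw [Finset.sum_comm]
    apply Finset.sum_congr rfl
    intro x _
    apply Finset.sum_congr rfl
    intro y _
    rw [hK]
  have e3 : ∑ x, ∑ y, K x y * (f x - f y) ^ 2 =
      ∑ x, ∑ y, K x y * f x ^ 2 + ∑ x, ∑ y, K x y * f y ^ 2 -
        2 * ∑ x, ∑ y, K x y * (f x * f y) := by
    rw [Finset.mul_sum, ← Finset.sum_add_distrib, ← Finset.sum_sub_distrib]
    apply Finset.sum_congr rfl
    intro x _
    rw [Finset.mul_sum, ← Finset.sum_add_distrib, ← Finset.sum_sub_distrib]
    apply Finset.sum_congr rfl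
    intro y _
    ring
  rw [e1, e3, e2]
  simp only [Finset.sum_sub_distrib]
  ring

/-- the two Dirichlet forms agree -/
theorem cE_eq (G : Matrix X X ℂ) (hG : ∀ x y, G x y = G y x) (κ : X → ℝ) (A : Finset X)
    (f : X → ℝ) : ANR.cE G κ A f = qf (EE G κ A) f := by
  unfold EE
  rw [qf_dl _ (fun x y => ?_)]
  · unfold ANR.cE cd KK
    congr 1
    rw [← Finset.sum_subset (Finset.subset_univ A)]
    · apply Finset.sum_congr rfl
      intro x hx
      rw [← Finset.sum_subset (Finset.subset_univ A)]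
      · apply Finset.sum_congr rfl
        intro y hy
        rw [if_pos ⟨hx, hy⟩]
      · intro y _ hy
        rw [if_neg (fun h => hy h.2), zero_mul]
    · intro x _ hx
      apply Finset.sum_eq_zero
      intro y _
      rw [if_neg (fun h => hx h.1), zero_mul]
  · unfold cd KK
    by_cases h : x ∈ A ∧ y ∈ A
    · rw [if_pos h, if_pos h.symm, hG x y]
      ring
    · rw [if_neg h, if_neg (fun h' => h h'.symm)]

end form

end Pool.Agent.AHH.H58
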