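import Pool.Agent.AHH.Defs

/-!
# FLO: the block without running sites (helper58)
-/

set_option autoImplicit false

open MeasureTheory ProbabilityTheory

open scoped BigOperators NNReal ENNReal Matrix

noncomputable section

namespace Pool.Agent.AHH.H58

open Pool.Agent.BED (Tor)
open Pool.Agent.AND2B (net kap Viol)
open Pool.Agent.ANP (Cfg gm)
open Pool.Agent.LTG (Fm Bd sT tT qd)

variable {d M : ℕ} [NeZero M]

omit [NeZero M] in
theorem hf_empty (T : Cfg (Tor d M)) (th : ℝ≥0) (ζ : Tor d M → ℝ) : T.hf th ∅ ζ = T := by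
  unfold Cfg.hf
  cases T
  simp

/-- no running site in the block: nothing changes -/
theorem inc_empty {V : Env d M} {b : Bud} {n k : ℕ} {run : Finset (Tor d M)} {B : Tor d M}
    {T : Cfg (Tor d M)} (hw : ∀ x ∈ Al T, 0 < ww V.e₀ T x) (hg : ∀ x ∈ run, 0 ≤ gg T x)
    (hD : 0 ≤ V.D₀ ∧ 0 ≤ V.D₁) (hi : 0 ≤ b.inc n k) (hL : 0 ≤ (b.q n k).lam * b.inL n k)
    (hY : 0 ≤ b.inY n k) (hn : 0 ≤ b.nn n k)
    (hu : V.u₀ < 1) (hn1 : b.nn n k * Real.exp 2 < (1 - V.u₀) / 2) :
    Inc V b n k run B T T := by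
  have hom : ∀ x, 0 < om V.Γ n B x := fun x => Real.exp_pos _
  have hom2 : ∀ x, om V.Γ n B x ≤ Real.exp 2 := by
    intro x
    unfold om
    rw [Real.exp_le_exp]
    have : (0 : ℝ) ≤ (V.Γ.D x B : ℝ) / V.Γ.L n := by positivity
    linarith
  refine ⟨fun x _ y _ => ?_, fun x _ => ?_, fun a ha => ?_, fun εl εu bl bu hF h1 h2 => ?_⟩
  · rw [sub_self, norm_zero]
    exact mul_nonneg hi (hom x).le
  · have : 0 ≤ (b.q n k).lam * b.inL n k * om V.Γ n B x := mul_nonneg hL (hom x).le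
    have e : (b.q n k).lam * (b.inL n k * om V.Γ n B x) =
        (b.q n k).lam * b.inL n k * om V.Γ n B x := by ring
    rw [e]
    linarith
  · have h1 : 0 ≤ b.inY n k * om V.Γ n B a * gg T a :=
      mul_nonneg (mul_nonneg hY (hom a).le) (hg a ha)
    linarith
  · have hr : ∀ x ∈ Al T, ww V.e₀ T x / ww V.e₀ T x = 1 := fun x hx => div_self (hw x hx).ne'
    have hno : ∀ x, 0 ≤ b.nn n k * om V.Γ n B x := fun x => mul_nonneg hn (hom x).le
    refine hF.mono (fun x hx => (hw x hx).le) (fun x hx => (h1 x hx).1) (fun x hx => ?_)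
      (fun x hx => ?_) (fun x hx => ?_) (fun e => ?_) (fun e => ?_)
    · rw [hr x hx, mul_one]
      linarith [hno x]
    · rw [hr x hx, mul_one]
      linarith [hno x]
    · rw [hr x hx, mul_one]
      have h3 := (h1 x hx).2.2.2
      have h4 : b.nn n k * om V.Γ n B x ≤ b.nn n k * Real.exp 2 :=
        mul_le_mul_of_nonneg_left (hom2 x) hn
      linarith
    · linarith [mul_nonneg hD.1 (hno (sT e))]
    · linarith [mul_nonneg hD.2 (hno (sT e))]

end Pool.Agent.AHH.H58
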