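import Pool.Agent.AHH.Defs
import Pool.Agent.Helper58_AHH.Meas
import Pool.Agent.Helper89_FAR.Far2

/-!
# `Inc.ent` and `Inc.lar` from the block lemma and the far estimates (helper58)
-/

set_option autoImplicit false

open scoped BigOperators NNReal ENNReal Matrix

noncomputable section

namespace Pool.Agent.AHH.H58

open Pool.Agent.BED (Tor)
open Pool.Agent.LE.QF (KK)
open Pool.Agent.AND2B (net kap Hr Vef)
open Pool.Agent.ANP (Cfg Geo)
open Pool.Agent.AFJ (LaR)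
open Pool.Agent.AFL (Fl)
open Pool.Agent.ANR.H89 (Upd)
open Pool.Agent.ANR (Gr)

section gen

variable {X : Type} [Fintype X] [DecidableEq X] {H H' : Matrix X X ℝ} {κ κ' φ : X → ℝ}
  {F A S : Finset X} {h₀ k₀ β : ℝ}

/-- fourth powers against far sites -/
theorem lar_far (h : Upd H H' κ κ' φ F A S h₀ k₀ β) {R : Finset X} (hR : R ⊆ A)
    (hRF : ∀ y ∈ R, y ∉ F) {x : X} (hx : x ∈ A) {φ0 : ℝ} (hφ : ∀ y ∈ R, φ0 ≤ φ y) :
    |LaR (Gr H' κ') R x - LaR (Gr H κ) R x| ≤ 16 / k₀ ^ 4 * Real.exp (-(β * φ0)) := by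
  have hk := h.hk₀
  unfold LaR KK
  rw [← Finset.sum_sub_distrib]
  have h1 : ∀ y ∈ R, |(‖Gr H' κ' x y‖ ^ 2) ^ 2 - (‖Gr H κ x y‖ ^ 2) ^ 2| ≤
      8 / k₀ ^ 3 * Real.exp (-(β * φ0)) * (κ' y * ‖Gr H' κ' x y‖ ^ 2 + κ y * ‖Gr H κ x y‖ ^ 2) :=
    fun y hy => by
      have hyA := hR hy
      have e1 := h.ent hx hyA (fun hh => hRF y hy hh.2)
      have e2 := ANR.H89.ent_le h.n' hk (h.hA x hx).2 (h.hA y hyA).2
      have e3 := ANR.H89.ent_le h.n hk (h.hA x hx).1 (h.hA y hyA).1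
      set a := ‖Gr H' κ' x y‖ with ha
      set b := ‖Gr H κ x y‖ with hb
      have ha0 : 0 ≤ a := norm_nonneg _
      have hb0 : 0 ≤ b := norm_nonneg _
      have e4 : |a - b| ≤ 4 / k₀ * Real.exp (-(β * φ0)) := by
        refine (abs_norm_sub_norm_le _ _).trans (e1.trans ?_)
        refine mul_le_mul_of_nonneg_left (Real.exp_le_exp.2 ?_) (by positivity)
        nlinarith [h.plt.nn x, h.hβ, mul_nonneg h.hβ (h.plt.nn x),
          mul_le_mul_of_nonneg_left (hφ y hy) h.hβ]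
      have e5 : (a ^ 2) ^ 2 - (b ^ 2) ^ 2 = (a - b) * ((a + b) * (a ^ 2 + b ^ 2)) := by ring
      rw [e5, abs_mul, abs_of_nonneg (by positivity : 0 ≤ (a + b) * (a ^ 2 + b ^ 2))]
      have e6 : (a + b) * (a ^ 2 + b ^ 2) ≤ 2 / k₀ * (1 / k₀ * (κ' y * a ^ 2 + κ y * b ^ 2)) := by
        have e7 : a + b ≤ 2 / k₀ := by
          have : 2 / k₀ = 1 / k₀ + 1 / k₀ := by ring
          rw [this]; exact add_le_add e2 e3
        have e8 : a ^ 2 + b ^ 2 ≤ 1 / k₀ * (κ' y * a ^ 2 + κ y * b ^ 2) := by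
          rw [one_div, ← div_eq_inv_mul, le_div_iff₀ hk]
          nlinarith [mul_le_mul_of_nonneg_right (h.hA y hyA).2 (sq_nonneg a),
            mul_le_mul_of_nonneg_right (h.hA y hyA).1 (sq_nonneg b)]
        exact mul_le_mul e7 e8 (by positivity) (by positivity)
      calc |a - b| * ((a + b) * (a ^ 2 + b ^ 2)) ≤
          4 / k₀ * Real.exp (-(β * φ0)) * (2 / k₀ * (1 / k₀ * (κ' y * a ^ 2 + κ y * b ^ 2))) :=
            mul_le_mul e4 e6 (by positivity) (by positivity)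
        _ = _ := by field_simp; ring
  have h2 : ∑ y ∈ R, (κ' y * ‖Gr H' κ' x y‖ ^ 2 + κ y * ‖Gr H κ x y‖ ^ 2) ≤ 2 / k₀ := by
    rw [Finset.sum_add_distrib]
    have e1 : ∑ y ∈ R, κ' y * ‖Gr H' κ' x y‖ ^ 2 ≤ 1 / k₀ := by
      refine (Finset.sum_le_univ_sum_of_nonneg fun y =>
        mul_nonneg (h.n'.pos y).le (sq_nonneg _)).trans ?_
      rw [ANR.H89.ward h.n']; exact ANR.H89.im_le h.n' hk (h.hA x hx).2
    have e2 : ∑ y ∈ R, κ y * ‖Gr H κ x y‖ ^ 2 ≤ 1 / k₀ := by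
      refine (Finset.sum_le_univ_sum_of_nonneg fun y =>
        mul_nonneg (h.n.pos y).le (sq_nonneg _)).trans ?_
      rw [ANR.H89.ward h.n]; exact ANR.H89.im_le h.n hk (h.hA x hx).1
    have : 2 / k₀ = 1 / k₀ + 1 / k₀ := by ring
    rw [this]; exact add_le_add e1 e2
  refine (Finset.abs_sum_le_sum_abs _ _).trans ((Finset.sum_le_sum h1).trans ?_)
  rw [← Finset.mul_sum]
  refine (mul_le_mul_of_nonneg_left h2 (by positivity)).trans (le_of_eq ?_)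
  field_simp; norm_num

/-- the same for a far site against all sites -/
theorem lar_far' (h : Upd H H' κ κ' φ F A S h₀ k₀ β) {R : Finset X} (hR : R ⊆ A)
    {x : X} (hx : x ∈ A) (hxF : x ∉ F) :
    |LaR (Gr H' κ') R x - LaR (Gr H κ) R x| ≤ 16 / k₀ ^ 4 * Real.exp (-(β * φ x)) := by
  have h1 := h.lar hR hx hxF
  have e : ∀ (G : Matrix X X ℂ), LaR G R x = ∑ y ∈ R, ‖G x y‖ ^ 4 := fun G => by
    unfold LaR KK
    exact Finset.sum_congr rfl fun y _ => by ring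
  rw [e, e]
  exact h1

end gen

section om

variable {X : Type}

theorem om_pos (Γ : Geo X) (n : ℕ) (B x : X) : 0 < om Γ n B x := Real.exp_pos _

theorem one_le_om (Γ : Geo X) (n : ℕ) (B x : X) (h : Γ.D x B ≤ 2 * Γ.L n) : 1 ≤ om Γ n B x := by
  unfold om
  rw [Real.one_le_exp_iff]
  have h1 : (Γ.D x B : ℝ) ≤ 2 * Γ.L n := by exact_mod_cast h
  rcases Nat.eq_zero_or_pos (Γ.L n) with h2 | h2
  · rw [h2]
    simp
  · have h3 : (0 : ℝ) < Γ.L n := by exact_mod_cast h2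
    have h4 : (Γ.D x B : ℝ) / Γ.L n ≤ 2 := by rwa [div_le_iff₀ h3]
    linarith

/-- exponential tails against the potential -/
theorem far_om (Γ : Geo X) (n : ℕ) (B x : X) {W c β f : ℝ} (hL : 0 < Γ.L n)
    (hx : 2 * Γ.L n < Γ.D x B) (hf : (Γ.D x B : ℝ) / 8 ≤ f) (hβ : 16 ≤ β * Γ.L n) (hW : 0 ≤ W)
    (hc : W * Real.exp (-(β * Γ.L n / 8)) ≤ c) (hc0 : 0 ≤ c) :
    W * Real.exp (-(β * f)) ≤ c * om Γ n B x := by
  have h3 : (0 : ℝ) < Γ.L n := by exact_mod_cast hL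
  have hx' : 2 * (Γ.L n : ℝ) < Γ.D x B := by exact_mod_cast hx
  have hβ0 : 0 < β := by
    by_contra hcon
    push Not at hcon
    nlinarith
  have h4 : β * Γ.L n / 8 + (Γ.D x B : ℝ) / Γ.L n - 2 ≤ β * f := by
    have h5 : (Γ.D x B : ℝ) / Γ.L n ≤ β * Γ.D x B / 16 := by
      rw [div_le_iff₀ h3]
      have h6 : 0 ≤ (Γ.D x B : ℝ) := Nat.cast_nonneg _
      nlinarith
    have h6 : β * (Γ.D x B / 8) ≤ β * f := mul_le_mul_of_nonneg_left hf hβ0.le
    nlinarith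
  calc W * Real.exp (-(β * f)) ≤
      W * (Real.exp (-(β * Γ.L n / 8)) * Real.exp (2 - (Γ.D x B : ℝ) / Γ.L n)) := by
        apply mul_le_mul_of_nonneg_left _ hW
        rw [← Real.exp_add, Real.exp_le_exp]
        linarith
    _ = W * Real.exp (-(β * Γ.L n / 8)) * om Γ n B x := by unfold om; ring
    _ ≤ c * om Γ n B x := mul_le_mul_of_nonneg_right hc (om_pos Γ n B x).le

end om

variable {d M : ℕ} [NeZero M]

/-- the common hypotheses of the far part of one block update -/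
structure FarH (V : Env d M) (n : ℕ) (B : Tor d M) (b : Finset (Tor d M)) (T T' : Cfg (Tor d M))
    (φ : Tor d M → ℝ) (S : Finset (Tor d M)) (h₀ k₀ β : ℝ) : Prop where
  upd : Upd (Hr (Vef T) V.E) (Hr (Vef T') V.E) (kap V.e₀ T) (kap V.e₀ T') φ b (Al T) S h₀ k₀ β
  far : ∀ x, 2 * V.Γ.L n < V.Γ.D x B → (V.Γ.D x B : ℝ) / 8 ≤ φ x
  bB : ∀ x ∈ b, V.Γ.D x B ≤ V.Γ.L n
  L0 : 0 < V.Γ.L n
  bL : 16 ≤ β * V.Γ.L n

/-- `Inc.ent` -/
theorem inc_ent {V : Env d M} {n : ℕ} {B : Tor d M} {b Q1 : Finset (Tor d M)}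
    {T T' : Cfg (Tor d M)} {φ : Tor d M → ℝ} {S : Finset (Tor d M)} {h₀ k₀ β δ : ℝ}
    (h : FarH V n B b T T' φ S h₀ k₀ β)
    (hQ : ∀ x ∈ Al T, V.Γ.D x B ≤ 2 * V.Γ.L n → x ∈ Q1)
    (hG : ∀ x ∈ Q1, ∀ y ∈ Q1, ‖net V.E V.e₀ T' x y - net V.E V.e₀ T x y‖ ≤ δ)
    (hδ : 4 / k₀ * Real.exp (-(β * V.Γ.L n / 8)) ≤ δ) :
    ∀ x ∈ Al T, ∀ y ∈ Al T,
      ‖net V.E V.e₀ T' x y - net V.E V.e₀ T x y‖ ≤ δ * om V.Γ n B x := by
  intro x hx y hy
  have hk := h.upd.hk₀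
  have hδ0 : 0 ≤ δ := le_trans (by positivity) hδ
  have hβ := h.upd.hβ
  have hfar : ∀ z ∈ Al T, ¬ V.Γ.D z B ≤ 2 * V.Γ.L n → z ∉ b := by
    intro z _ hz hb
    have := h.bB z hb
    omega
  by_cases hxD : V.Γ.D x B ≤ 2 * V.Γ.L n
  · have hom := one_le_om V.Γ n B x hxD
    have hle : δ ≤ δ * om V.Γ n B x := by nlinarith
    by_cases hyD : V.Γ.D y B ≤ 2 * V.Γ.L n
    · exact (hG x (hQ x hx hxD) y (hQ y hy hyD)).trans hle
    · have h1 := h.upd.ent hx hy (fun hh => hfar y hy hyD hh.2)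
      refine h1.trans (le_trans ?_ hle)
      refine le_trans ?_ hδ
      apply mul_le_mul_of_nonneg_left _ (by positivity)
      rw [Real.exp_le_exp]
      have h2 := h.far y (by omega)
      have h3 := h.upd.plt.nn x
      have h4 : (V.Γ.L n : ℝ) / 8 ≤ φ y := by
        have : 2 * (V.Γ.L n : ℝ) < V.Γ.D y B := by
          have : 2 * V.Γ.L n < V.Γ.D y B := by omega
          exact_mod_cast this
        have h5 : (0 : ℝ) ≤ V.Γ.L n := Nat.cast_nonneg _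
        linarith
      nlinarith [mul_le_mul_of_nonneg_left h4 hβ, mul_nonneg hβ h3]
  · have h1 := h.upd.ent hx hy (fun hh => hfar x hx hxD hh.1)
    refine h1.trans ?_
    have h3 := h.upd.plt.nn y
    refine le_trans ?_ (far_om V.Γ n B x h.L0 (by omega) (h.far x (by omega)) h.bL
      (by positivity) hδ hδ0)
    apply mul_le_mul_of_nonneg_left _ (by positivity)
    rw [Real.exp_le_exp]
    nlinarith [mul_nonneg hβ h3]

/-- `Inc.lar` -/
theorem inc_lar {V : Env d M} {n : ℕ} {B : Tor d M} {b Q Q1 run : Finset (Tor d M)}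
    {T T' : Cfg (Tor d M)} {φ : Tor d M → ℝ} {S : Finset (Tor d M)} {h₀ k₀ β c ω : ℝ}
    (h : FarH V n B b T T' φ S h₀ k₀ β) (hrun : run ⊆ Al T)
    (hQ : ∀ x ∈ Al T, V.Γ.D x B ≤ 2 * V.Γ.L n → x ∈ Q1) (hQQ : Q1 ⊆ Q)
    (hG : ∀ x ∈ Q1, LaR (net V.E V.e₀ T') (run ∩ Q) x ≤ LaR (net V.E V.e₀ T) (run ∩ Q) x + ω)
    (hc : ω + 16 / k₀ ^ 4 * Real.exp (-(β * V.Γ.L n / 8)) ≤ c) (hω : 0 ≤ ω) :
    ∀ x ∈ Al T, LaR (net V.E V.e₀ T') run x ≤ LaR (net V.E V.e₀ T) run x + c * om V.Γ n B x := by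
  intro x hx
  have hk := h.upd.hk₀
  have hW : 0 ≤ 16 / k₀ ^ 4 := by positivity
  have hc0 : 0 ≤ c := le_trans (by positivity) hc
  have hβ := h.upd.hβ
  have hfar : ∀ z, ¬ V.Γ.D z B ≤ 2 * V.Γ.L n → z ∉ b := by
    intro z hz hb
    have := h.bB z hb
    omega
  by_cases hxD : V.Γ.D x B ≤ 2 * V.Γ.L n
  · have hom := one_le_om V.Γ n B x hxD
    have hle : c ≤ c * om V.Γ n B x := by nlinarith
    have h1 := hG x (hQ x hx hxD)
    have h2 : ∀ y ∈ run \ Q, ¬ V.Γ.D y B ≤ 2 * V.Γ.L n := by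
      intro y hy hD
      have hy' := Finset.mem_sdiff.1 hy
      exact hy'.2 (hQQ (hQ y (hrun hy'.1) hD))
    have h3 := lar_far h.upd (R := run \ Q) (Finset.sdiff_subset.trans hrun)
      (fun y hy => hfar y (h2 y hy)) hx (φ0 := (V.Γ.L n : ℝ) / 8) (fun y hy => by
        have h4 := h2 y hy
        have h5 := h.far y (by omega)
        have h6 : 2 * (V.Γ.L n : ℝ) < V.Γ.D y B := by
          have : 2 * V.Γ.L n < V.Γ.D y B := by omega
          exact_mod_cast this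
        have h7 : (0 : ℝ) ≤ V.Γ.L n := Nat.cast_nonneg _
        linarith)
    have h4 : ∀ G : Matrix (Tor d M) (Tor d M) ℂ, LaR G run x = LaR G (run ∩ Q) x +
        LaR G (run \ Q) x := by
      intro G
      unfold LaR
      rw [add_comm, ← Finset.sum_sdiff (Finset.inter_subset_left (s₁ := run) (s₂ := Q)),
        Finset.sdiff_inter_self_left]
    have h5 := (abs_le.1 h3).2
    have e1 : β * ((V.Γ.L n : ℝ) / 8) = β * V.Γ.L n / 8 := by ring
    rw [e1] at h5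
    rw [h4, h4]
    change LaR (net V.E V.e₀ T') (run \ Q) x - LaR (net V.E V.e₀ T) (run \ Q) x ≤ _ at h5
    linarith
  · have h3 := lar_far' h.upd (R := run) hrun hx (hfar x hxD)
    have h5 := (abs_le.1 h3).2
    change LaR (net V.E V.e₀ T') run x - LaR (net V.E V.e₀ T) run x ≤ _ at h5
    have h6 := far_om V.Γ n B x (W := 16 / k₀ ^ 4) (c := c) h.L0 (by omega) (h.far x (by omega))
      h.bL hW (by linarith) hc0
    linarith

end Pool.Agent.AHH.H58
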