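import Pool.Agent.Helper58_AHH.EntLar
import Pool.Agent.Helper58_AHH.Emp
import Pool.Agent.Helper67_AHH.Ok
import Pool.Agent.Helper28_AHH.Mid
import Pool.Agent.Helper89_FAR.Loc
import Pool.Agent.Helper90_AHH.YHf

/-!
# FLO: one block (helper58)

`flow`: from the block lemma for `flOf` and the increments to the field `flo` for one block.
-/

set_option autoImplicit false

open MeasureTheory ProbabilityTheory

open scoped BigOperators NNReal ENNReal Matrix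

noncomputable section

namespace Pool.Agent.AHH.H58

open Pool.Agent.BED (Tor)
open Pool.Agent.LE.QF (BB KK)
open Pool.Agent.AND2B (net kap Viol Hr Vef)
open Pool.Agent.ANP (Cfg Geo Fc gm)
open Pool.Agent.AFJ (ind LaR EE)
open Pool.Agent.ABY (vir)
open Pool.Agent.AFL (Fl)
open Pool.Agent.LTG (Fm Bd sT tT qd)
open Pool.Agent.ANR.H89 (Upd GeoF cI upd_hf)
open Pool.Agent.AHH.H67 (Par flOf Yo Q1s EOk FNum BNum Lcl flOf_ok)

variable {d M : ℕ} [NeZero M]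

/-- the field `flo` for one block, in general form -/
def FloB (V : Env d M) (bd : Bud) (pn : ℝ) (n k : ℕ) (T₀ : Cfg (Tor d M))
    (run₀ P : Finset (Tor d M)) (T : Cfg (Tor d M)) (run : Finset (Tor d M)) (B : Tor d M) : Prop :=
  gm (fun _ => 0) (T.hv V.th (run ∩ V.Γ.blk n B))
    {ζ | ¬ (Viol V.E V.L (T.hf V.th (run ∩ V.Γ.blk n B) ζ) ∨
      Md V bd n k T₀ run₀ (P ∪ V.Γ.blk n B) (T.hf V.th (run ∩ V.Γ.blk n B) ζ) run)} ≤
    ENNReal.ofReal pn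

/-- no running site in the block -/
theorem flow_empty {V : Env d M} {bd : Bud} {n k : ℕ} {T₀ T : Cfg (Tor d M)}
    {run₀ run P : Finset (Tor d M)} {B : Tor d M} {pn : ℝ} (hN : H28.Nm V bd n k)
    (hB : V.Γ.bl n B = B) (hd : Disjoint P (V.Γ.blk n B))
    (hCp : ∀ x, Psi V.Γ n (P ∪ V.Γ.blk n B) x ≤ V.Cp) (hC2 : Real.exp 2 ≤ V.Cp)
    (hcl : Antitone V.cl) (hkk : Monotone V.kk) (hF : Fc V.Γ V.kk V.cl V.Dn n k P T run)
    (hM : Md V bd n k T₀ run₀ P T run)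
    (hAl : Al T = Al T₀) (hrA : run ⊆ Al T)
    (hu : V.u₀ < 1) (hrho : 0 < (bd.q n k).rho)
    (hb : run ∩ V.Γ.blk n B = ∅) : FloB V bd pn n k T₀ run₀ P T run B := by
  unfold FloB
  rw [hb]
  have hg : Gb V T (bd.q n k).del := by
    intro x hx
    rw [hAl] at hx
    have h1 := hM.st0.gau x hx
    unfold gg at h1 ⊢
    rw [hM.mb]
    exact h1
  have hw : ∀ x ∈ Al T, 0 < ww V.e₀ T x := fun x hx => H28.ww_pos hN.c0 hN.e0 hg hx
  have hI : Inc V bd n k run B T T := by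
    refine inc_empty hw (fun x hx => ?_) hN.D hN.inc.1 ?_ hN.inc.2.2.1 hN.inc.2.2.2 hu ?_
    · exact hN.c0.le.trans (hg x (hrA hx)).1
    · exact mul_nonneg hN.q.2.2 hN.inc.2.1
    · have h1 := hN.sm.2.2
      have h2 := mul_le_mul_of_nonneg_left hC2 hN.inc.2.2.2
      linarith
  have hMd : ∀ ζ, Md V bd n k T₀ run₀ (P ∪ V.Γ.blk n B)
      (T.hf V.th (run ∩ V.Γ.blk n B) ζ) run := by
    intro ζ
    refine H28.mid hN hB hd hCp hcl hkk hF hM ?_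
    rw [hb, hf_empty]
    exact hI
  have he : {ζ : Tor d M → ℝ | ¬ (Viol V.E V.L (T.hf V.th ∅ ζ) ∨
      Md V bd n k T₀ run₀ (P ∪ V.Γ.blk n B) (T.hf V.th ∅ ζ) run)} = ∅ := by
    rw [Set.eq_empty_iff_forall_notMem]
    intro ζ hζ
    have h1 := hMd ζ
    rw [hb] at h1
    exact hζ (Or.inr h1)
  rw [he, measure_empty]
  exact zero_le

/-- the numbers of one block -/
structure FlowN (V : Env d M) (bd : Bud) (n k : ℕ) (p : Par) : Prop where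
  δ : p.δ ≤ bd.inc n k
  bL : 96 ≤ V.c₀ * V.cl (k + 1) / (8 * d) * V.Γ.L n
  ent : 4 / (V.c₀ * V.cl (k + 1)) *
    Real.exp (-(V.c₀ * V.cl (k + 1) / (8 * d) * V.Γ.L n / 8)) ≤ bd.inc n k
  lar : p.ω * p.L + 16 / (V.c₀ * V.cl (k + 1)) ^ 4 *
    Real.exp (-(V.c₀ * V.cl (k + 1) / (8 * d) * V.Γ.L n / 8)) ≤ (bd.q n k).lam * bd.inL n k
  yin : 2 * p.δY ≤ bd.inY n k * V.c₀
  yfar : 800 / (V.c₀ * (V.c₀ * V.cl (k + 1))) *
    Real.exp (-(V.c₀ * V.cl (k + 1) / (8 * d) / 6 * V.Γ.L n / 8)) ≤ bd.inY n k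
  /-- mismatch -/
  mis : (bd.q n k).mis + bd.inc n k * V.Cp ≤ V.c₀ / 2
  /-- geometry -/
  hL : 4 * (cI d V.Dn (Finset.range (n + 1)) + 1) ≤ V.Γ.L n
  hsum : ∑ i ∈ Finset.range (n + 1), (3 ^ d * V.Dn i : ℝ) / V.Γ.L i ≤ 1 / 4

/-- GOOD GIVES THE INCREMENTS -/
theorem inc_good {V : Env d M} {bd : Bud} {n k : ℕ} {p : Par} {T₀ T : Cfg (Tor d M)}
    {run₀ run P Q : Finset (Tor d M)} {B : Tor d M} {ζ : Tor d M → ℝ} (hΓ : GeoF V.Γ)
    (hE : EOk V k) (hcl : ∀ k, V.cl (k + 1) = V.th * V.cl k) (hclp : ∀ k, 0 < V.cl k)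
    (hcl1 : V.cl 0 ≤ 1) (hM : Md V bd n k T₀ run₀ P T run)
    (hF : Fc V.Γ V.kk V.cl V.Dn n k P T run) (hN : FlowN V bd n k p) (hω : 0 ≤ p.ω * p.L)
    (hB : V.Γ.bl n B = B) (hne : (run ∩ V.Γ.blk n B).Nonempty)
    (hdj : Disjoint P (V.Γ.blk n B)) (hPsi : ∀ x, Psi V.Γ n (P ∪ V.Γ.blk n B) x ≤ V.Cp)
    (hi : 0 ≤ bd.inc n k) (hQ : Q1s V n T B ⊆ Q)
    (hG : (flOf V T (run ∩ V.Γ.blk n B) Q (Q1s V n T B) run (run \ P) (Yo V n T) k p).Good
      (fun c => ζ c))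
    (hfrm : ∀ (εl εu : Tor d M → ℝ) (bl bu : Bd d M → ℝ),
      Fm sT tT (Al T) (ww V.e₀ T) εl εu bl bu (qd (Ef V.E V.e₀ T)) →
      (∀ x ∈ Al T, 0 ≤ εl x ∧ εl x ≤ 1 / 8 ∧ 0 ≤ εu x ∧ εu x ≤ (1 + V.u₀) / 2) →
      (∀ e, V.D₀ / 2 ≤ bl e ∧ V.D₁ ≤ bu e ∧ bu e ≤ 2 * V.D₁) →
      Fm sT tT (Al T) (ww V.e₀ (T.hf V.th (run ∩ V.Γ.blk n B) ζ))
        (fun x => εl x * (ww V.e₀ (T.hf V.th (run ∩ V.Γ.blk n B) ζ) x / ww V.e₀ T x) +
          bd.nn n k * om V.Γ n B x)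
        (fun x => εu x * (ww V.e₀ (T.hf V.th (run ∩ V.Γ.blk n B) ζ) x / ww V.e₀ T x) +
          bd.nn n k * om V.Γ n B x)
        (fun e => bl e - V.D₀ * (bd.nn n k * om V.Γ n B (sT e)))
        (fun e => bu e + V.D₁ * (bd.nn n k * om V.Γ n B (sT e)))
        (qd (Ef V.E V.e₀ (T.hf V.th (run ∩ V.Γ.blk n B) ζ)))) :
    Inc V bd n k run B T (T.hf V.th (run ∩ V.Γ.blk n B) ζ) := by
  set b := run ∩ V.Γ.blk n B with hb
  set T' := T.hf V.th b ζ with hT'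
  set F := flOf V T b Q (Q1s V n T B) run (run \ P) (Yo V n T) k p with hFd
  have hth := hE.th
  have hgau := H67.md_gau hM hE
  have hfc := H67.fc_run hF hE
  have halv : run ⊆ Al T := H67.fc_alv hF hE
  have hclR := hE.cl
  have hbr : b ⊆ run := Finset.inter_subset_left
  have hbP : ∀ x ∈ b, x ∉ P := fun x hx hP =>
    Finset.disjoint_left.1 hdj hP (Finset.mem_inter.1 hx).2
  have hbs : ∀ x ∈ b, T.s x = V.cl k := fun x hx => hfc.2.1 x (hbr hx) (hbP x hx)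
  have hT's : ∀ x ∈ b, T'.s x = V.cl (k + 1) := by
    intro x hx
    rw [hT', H28.hf_s, if_pos hx, hbs x hx, hcl k]
  have hoff : ∀ x, x ∉ b → T'.V x = T.V x ∧ T'.s x = T.s x := by
    intro x hx
    rw [hT', H28.hf_s, H28.hf_V, if_neg hx, if_neg hx]
    exact ⟨rfl, rfl⟩
  have hmb : T'.mb = T.mb := rfl
  have hth1 : V.th ≤ 1 := by exact_mod_cast hth.2.le
  -- the far estimates
  obtain ⟨-, φ, hU, hφ⟩ := upd_hf hΓ hth1 hcl hclp hcl1 hE.e₀ hE.c₀.1 hE.c₀.2.1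
    (fun x hx => (hgau x hx).1) hF hN.hsum hN.hL hB hne hmb hoff (fun x hx => (hT's x hx).ge)
  have hk0 : 0 < V.c₀ * (V.cl (k + 1) : ℝ) := mul_pos hE.c₀.1 (by exact_mod_cast hclp _)
  have hL0 : 0 < V.Γ.L n := hΓ.one n
  have hFar : FarH V n B b T T' φ (Al T \ b) (2 * d) (V.c₀ * V.cl (k + 1))
      (V.c₀ * V.cl (k + 1) / (8 * d)) :=
    ⟨hU, hφ, fun x hx => by
      have h1 : V.Γ.bl n x = B := by
        have h2 := (Finset.mem_inter.1 hx).2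
        unfold Geo.blk at h2
        exact (Finset.mem_filter.1 h2).2
      exact hΓ.ok.diam n x B (by rw [h1, hB]), hL0, by linarith [hN.bL]⟩
  -- the resolvents
  obtain ⟨hG0, -⟩ := fl_G0 F V.E V.e₀ T b rfl
  obtain ⟨hG1, -⟩ := fl_Gt F V.E V.e₀ T V.th (V.cl k) b rfl hbs rfl ζ
  have hQ1 : ∀ x ∈ Al T, V.Γ.D x B ≤ 2 * V.Γ.L n → x ∈ Q1s V n T B := fun x hx hD =>
    Finset.mem_filter.2 ⟨hx, hD⟩
  have hent : ∀ x ∈ Al T, ∀ y ∈ Al T,
      ‖net V.E V.e₀ T' x y - net V.E V.e₀ T x y‖ ≤ bd.inc n k * om V.Γ n B x := by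
    refine inc_ent hFar hQ1 (fun x hx y hy => ?_) hN.ent
    have h1 := hG.ent x hx y hy
    rw [hG0, hG1] at h1
    exact h1.trans hN.δ
  have hmis : ∀ a ∈ run, ‖net V.E V.e₀ T a a - T.mb a‖ ≤
      (bd.q n k).mis + bd.inc n k * Psi V.Γ n P a := by
    intro a ha
    have h1 := hM.ent a (halv ha) a (halv ha)
    have h2 := hM.st0.mis a (hM.sub ha)
    have h3 : net V.E V.e₀ T a a - T.mb a = (net V.E V.e₀ T a a - net V.E V.e₀ T₀ a a) +
        (net V.E V.e₀ T₀ a a - T₀.mb a) := by rw [hM.mb]; ring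
    rw [h3]
    refine (norm_add_le _ _).trans ?_
    linarith
  have hPu := H28.psi_union V.Γ n P B hB hdj
  refine ⟨hent, ?_, ?_, hfrm⟩
  · -- the fourth powers
    have h1 := inc_lar (Q := Q) hFar halv hQ1 hQ (fun x hx => by
      have h2 := hG.lam x hx
      rw [hG0, hG1] at h2
      exact h2) hN.lar hω
    intro x hx
    have h2 := h1 x hx
    calc LaR (net V.E V.e₀ T') run x ≤ LaR (net V.E V.e₀ T) run x +
        (bd.q n k).lam * bd.inL n k * om V.Γ n B x := h2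
      _ = _ := by ring
  · -- block Y
    have hpf : F.Pf F.T = pv T' run (V.cl (k + 1)) := by
      have h1 := H90.pv_hf T V.th hbr ζ (V.cl (k + 1)) ((1 - (V.th : ℝ)) * V.cl k)
        (fun x hx => by rw [hbs x hx])
      exact h1
    refine H90.inc_yin_hf (s := V.cl k) hU hφ hE.e₀.le hE.c₀.1 halv hbr hmb
      (fun x hx => (hoff x hx).2) (fun x hx => by rw [hT's x hx])
      (fun x hx => by rw [hbs x hx]) (fun x hx => ?_) (by exact_mod_cast hclp _) ?_ ?_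
      (fun a ha => ?_) hQ1 (fun x hx hr => ?_) (fun x hx hr => ?_) hL0 hN.yin ?_ hN.yfar
    · by_cases hP : x ∈ P
      · right
        rw [hfc.2.2.1 x hx hP]
      · left
        rw [hfc.2.1 x hx hP]
    · exact hE.cl'.2
    · rw [hclR.2]
      nlinarith [hclR.1]
    · have hga := (hgau a (halv ha)).1
      have h1 := hmis a ha
      have h2 := hent a (halv ha) a (halv ha)
      have h3 : bd.inc n k * Psi V.Γ n P a + bd.inc n k * om V.Γ n B a ≤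
          bd.inc n k * V.Cp := by
        rw [← mul_add, ← hPu a]
        exact mul_le_mul_of_nonneg_left (hPsi a) hi
      have h4 : 0 ≤ bd.inc n k * om V.Γ n B a := mul_nonneg hi (om_pos V.Γ n B a).le
      have h5 := hN.mis
      have h6 : (net V.E V.e₀ T a a).im - gg T a ≤ ‖net V.E V.e₀ T a a - T.mb a‖ := by
        have h7 := Complex.abs_im_le_norm (net V.E V.e₀ T a a - T.mb a)
        rw [Complex.sub_im] at h7
        exact (le_abs_self _).trans h7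
      have h7 : (net V.E V.e₀ T' a a).im - (net V.E V.e₀ T a a).im ≤
          ‖net V.E V.e₀ T' a a - net V.E V.e₀ T a a‖ := by
        have h8 := Complex.abs_im_le_norm (net V.E V.e₀ T' a a - net V.E V.e₀ T a a)
        rw [Complex.sub_im] at h8
        exact (le_abs_self _).trans h8
      exact ⟨hga, by linarith, by linarith⟩
    · have h1 := hG.yb x hx hr
      rw [hG0, hG1, hpf] at h1
      exact h1
    · have h1 := hG.yk x hx hr
      rw [hG0, hG1, hpf] at h1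
      exact h1
    · have h1 := hN.bL
      have h2 : V.c₀ * V.cl (k + 1) / (8 * d) / 6 * V.Γ.L n =
          V.c₀ * V.cl (k + 1) / (8 * d) * V.Γ.L n / 6 := by ring
      rw [h2]
      linarith

/-- the form part of the increments (`Helper22_LTG.Inc`) -/
def FrmI (V : Env d M) (bd : Bud) (n k : ℕ) (B : Tor d M) (T T' : Cfg (Tor d M)) : Prop :=
  ∀ (εl εu : Tor d M → ℝ) (bl bu : Bd d M → ℝ),
    Fm sT tT (Al T) (ww V.e₀ T) εl εu bl bu (qd (Ef V.E V.e₀ T)) →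
    (∀ x ∈ Al T, 0 ≤ εl x ∧ εl x ≤ 1 / 8 ∧ 0 ≤ εu x ∧ εu x ≤ (1 + V.u₀) / 2) →
    (∀ e, V.D₀ / 2 ≤ bl e ∧ V.D₁ ≤ bu e ∧ bu e ≤ 2 * V.D₁) →
    Fm sT tT (Al T) (ww V.e₀ T')
      (fun x => εl x * (ww V.e₀ T' x / ww V.e₀ T x) + bd.nn n k * om V.Γ n B x)
      (fun x => εu x * (ww V.e₀ T' x / ww V.e₀ T x) + bd.nn n k * om V.Γ n B x)
      (fun e => bl e - V.D₀ * (bd.nn n k * om V.Γ n B (sT e)))
      (fun e => bu e + V.D₁ * (bd.nn n k * om V.Γ n B (sT e))) (qd (Ef V.E V.e₀ T'))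

/-- FLO FOR ONE BLOCK -/
theorem flow {V : Env d M} {bd : Bud} {n k : ℕ} {p : Par} {T₀ T : Cfg (Tor d M)}
    {run₀ run P Q : Finset (Tor d M)} {B : Tor d M} {Cf pn : ℝ} (hNm : H28.Nm V bd n k)
    (hΓ : GeoF V.Γ) (hE : EOk V k) (hcl : ∀ k, V.cl (k + 1) = V.th * V.cl k)
    (hclp : ∀ k, 0 < V.cl k) (hcl1 : V.cl 0 ≤ 1) (hcla : Antitone V.cl) (hkk : Monotone V.kk)
    (hM : Md V bd n k T₀ run₀ P T run) (hF : Fc V.Γ V.kk V.cl V.Dn n k P T run)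
    (hN : FlowN V bd n k p) (hω : 0 ≤ p.ω * p.L)
    (hB : V.Γ.bl n B = B) (hne : (run ∩ V.Γ.blk n B).Nonempty)
    (hdj : Disjoint P (V.Γ.blk n B)) (hPsi : ∀ x, Psi V.Γ n (P ∪ V.Γ.blk n B) x ≤ V.Cp)
    (hQ : Q1s V n T B ⊆ Q)
    (hflo : (Measure.pi fun _ : (flOf V T (run ∩ V.Γ.blk n B) Q (Q1s V n T B) run (run \ P)
        (Yo V n T) k p).b => gaussianReal 0 (flOf V T (run ∩ V.Γ.blk n B) Q (Q1s V n T B) run
        (run \ P) (Yo V n T) k p).T.toNNReal)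
          {v | ¬ (flOf V T (run ∩ V.Γ.blk n B) Q (Q1s V n T B) run (run \ P)
            (Yo V n T) k p).Good v} ≤
      ENNReal.ofReal ((flOf V T (run ∩ V.Γ.blk n B) Q (Q1s V n T B) run (run \ P)
        (Yo V n T) k p).pr V.c₀ V.C₀ Cf))
    (hpr : (flOf V T (run ∩ V.Γ.blk n B) Q (Q1s V n T B) run (run \ P)
      (Yo V n T) k p).pr V.c₀ V.C₀ Cf ≤ pn)
    (hfrm : ∀ ζ : Tor d M → ℝ, (flOf V T (run ∩ V.Γ.blk n B) Q (Q1s V n T B) run (run \ P)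
      (Yo V n T) k p).Good (fun c => ζ c) →
        FrmI V bd n k B T (T.hf V.th (run ∩ V.Γ.blk n B) ζ)) :
    FloB V bd pn n k T₀ run₀ P T run B := by
  have hfc := H67.fc_run hF hE
  have hth1 : V.th ≤ 1 := by exact_mod_cast hE.th.2.le
  have hbs : ∀ x ∈ run ∩ V.Γ.blk n B, T.s x = V.cl k := fun x hx =>
    hfc.2.1 x (Finset.mem_inter.1 hx).1
      fun hP => Finset.disjoint_left.1 hdj hP (Finset.mem_inter.1 hx).2
  unfold FloB
  refine flo_cover (flOf V T (run ∩ V.Γ.blk n B) Q (Q1s V n T B) run (run \ P)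
    (Yo V n T) k p) rfl hth1 hbs rfl hflo pn hpr
    (fun ζ => Viol V.E V.L (T.hf V.th (run ∩ V.Γ.blk n B) ζ) ∨
      Md V bd n k T₀ run₀ (P ∪ V.Γ.blk n B) (T.hf V.th (run ∩ V.Γ.blk n B) ζ) run) ?_
  intro ζ hG
  right
  exact H28.mid hNm hB hdj hPsi hcla hkk hF hM
    (inc_good hΓ hE hcl hclp hcl1 hM hF hN hω hB hne hdj hPsi hNm.inc.1 hQ hG (hfrm ζ hG))

end Pool.Agent.AHH.H58
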