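import Pool.Agent.Helper22_LTG.Lad

/-!
# LADT: the ladder changes the form only near the block (helper58)
-/

set_option autoImplicit false

open scoped BigOperators Matrix

noncomputable section

namespace Pool.Agent.AHH.H58

open Pool.Agent.LTG

variable {X : Type} [Fintype X] [DecidableEq X]

theorem qd_single (E : Matrix X X ℝ) (c : X) : qd E (Pi.single c 1) = E c c := by
  unfold qd
  rw [Finset.sum_eq_single c]
  · rw [Pi.single_eq_same, one_mul]
    simp [Matrix.mulVec_single]
  · intro a _ ha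
    rw [Pi.single_eq_of_ne ha, zero_mul]
  · intro h
    exact absurd (Finset.mem_univ c) h

theorem qd_pair (E : Matrix X X ℝ) (hs : E.IsSymm) (c e : X) (s : ℝ) :
    qd E (Pi.single c 1 + s • Pi.single e 1) = E c c + 2 * s * E c e + s ^ 2 * E e e := by
  have h1 : ∀ f g : X → ℝ, qd E (f + g) = qd E f + qd E g + 2 * ∑ a, f a * (E *ᵥ g) a := by
    intro f g
    unfold qd
    have e1 : ∑ a, g a * (E *ᵥ f) a = ∑ a, f a * (E *ᵥ g) a := by
      unfold Matrix.mulVec dotProduct
      simp only [Finset.mul_sum]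
      rw [Finset.sum_comm]
      apply Finset.sum_congr rfl
      intro a _
      apply Finset.sum_congr rfl
      intro b _
      rw [hs.apply a b]
      ring
    rw [Matrix.mulVec_add]
    simp only [Pi.add_apply, add_mul, mul_add, Finset.sum_add_distrib]
    rw [e1]
    ring
  have h2 : ∀ (f : X → ℝ), qd E (s • f) = s ^ 2 * qd E f := by
    intro f
    unfold qd
    rw [Matrix.mulVec_smul, Finset.mul_sum]
    apply Finset.sum_congr rfl
    intro a _
    simp only [Pi.smul_apply, smul_eq_mul]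
    ring
  rw [h1, h2, qd_single, qd_single]
  have h3 : ∑ a, (Pi.single c 1 : X → ℝ) a * (E *ᵥ (s • Pi.single e 1)) a = s * E c e := by
    rw [Finset.sum_eq_single c]
    · rw [Pi.single_eq_same, one_mul, Matrix.mulVec_smul]
      simp [Matrix.mulVec_single]
    · intro a _ ha
      rw [Pi.single_eq_of_ne ha, zero_mul]
    · intro h
      exact absurd (Finset.mem_univ c) h
  rw [h3]
  ring

/-- entries of a nonnegative symmetric matrix -/
theorem psd_entry (E : Matrix X X ℝ) (hs : E.IsSymm) (hp : ∀ f, 0 ≤ qd E f) (c e : X) {W : ℝ}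
    (hc : E c c ≤ W) (he : E e e ≤ W) : |E c e| ≤ W := by
  have h1 := hp (Pi.single c 1 + (1 : ℝ) • Pi.single e 1)
  have h2 := hp (Pi.single c 1 + (-1 : ℝ) • Pi.single e 1)
  rw [qd_pair E hs] at h1 h2
  rw [abs_le]
  constructor <;> nlinarith

/-- LADT -/
theorem ladt {E E1 : Matrix X X ℝ} {τ : X → ℝ} (h : Lad E E1 τ) (b : Finset X)
    (hb : ∀ x, x ∉ b → τ x = 0) {t W W' : ℝ} (ht1 : 0 ≤ t) (hW0 : 0 ≤ W)
    (ht : ∀ x, τ x ≤ t) (hW : ∀ c ∈ b, E c c ≤ W)
    (ψ : X → ℝ) (hψ : ∀ x, ∑ c ∈ b, |E x c| ≤ W' * ψ x) (x y : X) :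
    |E1 x y - E x y| ≤ (t * W' ^ 2 + t ^ 2 * W * W' ^ 2) * (ψ x * ψ y) := by
  have hs1 := lad_symm h
  have hsE : ∀ x y, E x y = E y x := fun x y => h.sym.apply y x
  have e1 : E1 = E - E * Matrix.diagonal τ * E1 := by
    rw [eq_sub_iff_add_eq]
    exact h.eq
  have e2 : E1 = E - E1 * Matrix.diagonal τ * E := by
    have := congrArg Matrix.transpose e1
    rw [Matrix.transpose_sub, Matrix.transpose_mul, Matrix.transpose_mul, hs1.eq, h.sym.eq,
      Matrix.diagonal_transpose, ← Matrix.mul_assoc] at this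
    exact this
  have e3 : E1 - E = -(E * Matrix.diagonal τ * E) +
      E * Matrix.diagonal τ * (E1 * Matrix.diagonal τ * E) := by
    have e4 : E1 - E = -(E * Matrix.diagonal τ * E1) := by
      rw [sub_eq_iff_eq_add]
      calc E1 = E - E * Matrix.diagonal τ * E1 := e1
        _ = _ := by abel
    rw [e4]
    have e5 : E * Matrix.diagonal τ * E1 = E * Matrix.diagonal τ * (E - E1 * Matrix.diagonal τ * E) :=
      congrArg (fun z => E * Matrix.diagonal τ * z) e2
    rw [e5, Matrix.mul_sub]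
    abel
  have ht0 : ∀ c, 0 ≤ τ c := h.tau
  have f1 : ∀ (A B : Matrix X X ℝ), (A * Matrix.diagonal τ * B) x y = ∑ c ∈ b, A x c * τ c * B c y := by
    intro A B
    rw [Matrix.mul_apply]
    simp only [Matrix.mul_diagonal]
    symm
    apply Finset.sum_subset (Finset.subset_univ b)
    intro c _ hc
    rw [hb c hc]
    ring
  have f2 : ∀ c, (E1 * Matrix.diagonal τ * E) c y = ∑ e ∈ b, E1 c e * τ e * E e y := by
    intro c
    rw [Matrix.mul_apply]
    simp only [Matrix.mul_diagonal]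
    symm
    apply Finset.sum_subset (Finset.subset_univ b)
    intro e _ he
    rw [hb e he]
    ring
  have e6 : E1 x y - E x y = -(∑ c ∈ b, E x c * τ c * E c y) +
      ∑ c ∈ b, E x c * τ c * ∑ e ∈ b, E1 c e * τ e * E e y := by
    have := congrFun (congrFun e3 x) y
    rw [Matrix.sub_apply, Matrix.add_apply, Matrix.neg_apply, f1, f1] at this
    rw [this]
    congr 1
    apply Finset.sum_congr rfl
    intro c _
    rw [f2]
  have a1 := hψ x
  have a2 := hψ y
  have s1 : 0 ≤ ∑ c ∈ b, |E x c| := Finset.sum_nonneg fun _ _ => abs_nonneg _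
  have s2 : 0 ≤ ∑ c ∈ b, |E y c| := Finset.sum_nonneg fun _ _ => abs_nonneg _
  have s3 : (∑ c ∈ b, |E x c|) * (∑ c ∈ b, |E y c|) ≤ (W' * ψ x) * (W' * ψ y) :=
    mul_le_mul a1 a2 s2 (s1.trans a1)
  have b1 : |∑ c ∈ b, E x c * τ c * E c y| ≤ t * ((W' * ψ x) * (W' * ψ y)) := by
    calc |∑ c ∈ b, E x c * τ c * E c y| ≤ ∑ c ∈ b, |E x c * τ c * E c y| :=
          Finset.abs_sum_le_sum_abs _ _
      _ ≤ ∑ c ∈ b, |E x c| * (t * ∑ e ∈ b, |E y e|) := by
          apply Finset.sum_le_sum
          intro c hc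
          rw [abs_mul, abs_mul, abs_of_nonneg (ht0 c), mul_assoc]
          apply mul_le_mul_of_nonneg_left _ (abs_nonneg _)
          apply mul_le_mul (ht c) _ (abs_nonneg _) ht1
          rw [hsE c y]
          exact Finset.single_le_sum (f := fun e => |E y e|) (fun _ _ => abs_nonneg _) hc
      _ = t * ((∑ c ∈ b, |E x c|) * (∑ c ∈ b, |E y c|)) := by
          rw [← Finset.sum_mul]
          ring
      _ ≤ _ := mul_le_mul_of_nonneg_left s3 ht1
  have b2 : |∑ c ∈ b, E x c * τ c * ∑ e ∈ b, E1 c e * τ e * E e y| ≤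
      t ^ 2 * W * ((W' * ψ x) * (W' * ψ y)) := by
    have hE1 : ∀ c ∈ b, E1 c c ≤ W := by
      intro c hc
      have := lad_mono h (Pi.single c 1)
      rw [qd_single, qd_single] at this
      exact this.trans (hW c hc)
    calc |∑ c ∈ b, E x c * τ c * ∑ e ∈ b, E1 c e * τ e * E e y|
        ≤ ∑ c ∈ b, |E x c * τ c * ∑ e ∈ b, E1 c e * τ e * E e y| :=
          Finset.abs_sum_le_sum_abs _ _
      _ ≤ ∑ c ∈ b, |E x c| * (t * (W * t * ∑ e ∈ b, |E y e|)) := by
          apply Finset.sum_le_sum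
          intro c hc
          rw [abs_mul, abs_mul, abs_of_nonneg (ht0 c), mul_assoc]
          apply mul_le_mul_of_nonneg_left _ (abs_nonneg _)
          apply mul_le_mul (ht c) _ (abs_nonneg _) ht1
          calc |∑ e ∈ b, E1 c e * τ e * E e y| ≤ ∑ e ∈ b, |E1 c e * τ e * E e y| :=
                Finset.abs_sum_le_sum_abs _ _
            _ ≤ ∑ e ∈ b, W * t * |E y e| := by
                apply Finset.sum_le_sum
                intro e he
                rw [abs_mul, abs_mul, abs_of_nonneg (ht0 e), hsE e y]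
                apply mul_le_mul_of_nonneg_right _ (abs_nonneg _)
                exact mul_le_mul (psd_entry E1 hs1 (fun f => lad_nonneg h f) c e (hE1 c hc)
                  (hE1 e he)) (ht e) (ht0 e) hW0
            _ = W * t * ∑ e ∈ b, |E y e| := by rw [Finset.mul_sum]
      _ = t ^ 2 * W * ((∑ c ∈ b, |E x c|) * (∑ c ∈ b, |E y c|)) := by
          rw [← Finset.sum_mul]
          ring
      _ ≤ _ := mul_le_mul_of_nonneg_left s3 (by positivity)
  rw [e6]
  calc |-(∑ c ∈ b, E x c * τ c * E c y) + ∑ c ∈ b, E x c * τ c * ∑ e ∈ b, E1 c e * τ e * E e y|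
      ≤ |-(∑ c ∈ b, E x c * τ c * E c y)| + |∑ c ∈ b, E x c * τ c * ∑ e ∈ b, E1 c e * τ e * E e y| :=
        abs_add_le _ _
    _ ≤ t * ((W' * ψ x) * (W' * ψ y)) + t ^ 2 * W * ((W' * ψ x) * (W' * ψ y)) := by
        rw [abs_neg]
        exact add_le_add b1 b2
    _ = _ := by ring

end Pool.Agent.AHH.H58
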